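import Pool.Agent.Lib.MP_72e2e6_nt.Sm.P.Spec

/-!
# MP_72e2e6_nt, `Sm/P`, module `AltE`: alternating forms have even rank
-/

namespace Pool.Agent.MP72S

private theorem alte_z2 (i : ZMod 2) : i = 0 ∨ i = 1 := by
  revert i
  decide

private theorem alte_aux (n : ℕ) : ∀ (W : Type) [AddCommGroup W] [Finite W] (B : W → W → ZMod 2),
    Nat.card W = n →
    (∀ a b c, B (a + b) c = B a c + B b c) → (∀ a b c, B a (b + c) = B a b + B a c) →
    (∀ a, B a a = 0) → ∀ R : AddSubgroup W, (∀ a, a ∈ R ↔ ∀ b, B a b = 0) →
    ∃ r : ℕ, Nat.card W = 4 ^ r * Nat.card R := by
  induction n using Nat.strong_induction_on with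
  | _ n ih =>
    intro W _ _ B hn h1 h2 h0 R hR
    by_cases hz : ∀ a b, B a b = 0
    · refine ⟨0, ?_⟩
      have hT : R = ⊤ := by
        rw [eq_top_iff]
        intro a _
        exact (hR a).2 (hz a)
      rw [hT, pow_zero, one_mul]
      exact (Nat.card_congr (AddSubgroup.topEquiv (G := W)).toEquiv).symm
    · push Not at hz
      obtain ⟨a, b, hab⟩ := hz
      have hab1 : B a b = 1 := (alte_z2 _).resolve_left hab
      have hsym : ∀ u v, B u v = B v u := by
        intro u v
        have h := h0 (u + v)
        rw [h1, h2, h2, h0, h0, zero_add, add_zero] at h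
        have h' : ∀ i j : ZMod 2, i + j = 0 → i = j := by decide
        exact h' _ _ h
      have hba1 : B b a = 1 := by rw [hsym, hab1]
      have hz0 : ∀ u, B u 0 = 0 := by
        intro u
        have h := h2 u 0 0
        rw [add_zero] at h
        exact left_eq_add.1 h
      let f : W →+ ZMod 2 × ZMod 2 :=
        { toFun := fun w => (B a w, B b w)
          map_zero' := by
            change (B a 0, B b 0) = 0
            rw [hz0, hz0]
            rfl
          map_add' := fun u v => by
            change (B a (u + v), B b (u + v)) = (B a u, B b u) + (B a v, B b v)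
            rw [h2, h2]
            rfl }
      have hf : ∀ w, f w = (B a w, B b w) := fun _ => rfl
      have hsurj : Function.Surjective f := by
        rintro ⟨i, j⟩
        refine ⟨(if i = 1 then b else 0) + (if j = 1 then a else 0), ?_⟩
        rw [hf]
        rcases alte_z2 i with rfl | rfl <;> rcases alte_z2 j with rfl | rfl
        · simp [hz0]
        · simp [h0, hba1]
        · simp [h0, hab1]
        · simp [h2, h0, hab1, hba1]
      have hcard : Nat.card W = 4 * Nat.card f.ker := by
        have h := AddSubgroup.card_eq_card_quotient_mul_card_addSubgroup f.ker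
        rw [h, Nat.card_congr (QuotientAddGroup.quotientKerEquivOfSurjective f hsurj).toEquiv]
        congr 1
        rw [Nat.card_prod]
        simp
      have hker : ∀ w, w ∈ f.ker ↔ B a w = 0 ∧ B b w = 0 := by
        intro w
        rw [AddMonoidHom.mem_ker, hf, Prod.mk_eq_zero]
      have hpos : 0 < Nat.card f.ker := Nat.card_pos
      have hlt : Nat.card f.ker < n := by omega
      have hRk : R ≤ f.ker := by
        intro w hw
        rw [hker]
        have h := (hR w).1 hw
        exact ⟨by rw [hsym, h], by rw [hsym, h]⟩
      obtain ⟨r, hr⟩ := ih _ hlt f.ker (fun u v => B u.1 v.1) rfl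
        (fun _ _ _ => h1 _ _ _) (fun _ _ _ => h2 _ _ _) (fun _ => h0 _)
        (R.addSubgroupOf f.ker) (by
          rintro ⟨w, hw⟩
          rw [AddSubgroup.mem_addSubgroupOf]
          constructor
          · intro h v
            exact (hR w).1 h v.1
          · intro h
            rw [hR]
            intro u
            have hwa : B w a = 0 := by rw [hsym]; exact ((hker w).1 hw).1
            have hwb : B w b = 0 := by rw [hsym]; exact ((hker w).1 hw).2
            have hu : u + ((if B b u = 1 then a else 0) + (if B a u = 1 then b else 0)) ∈
                f.ker := by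
              rw [hker]
              constructor
              · rw [h2, h2]
                rcases alte_z2 (B b u) with hi | hi <;> rcases alte_z2 (B a u) with hj | hj <;>
                  simp [hi, hj, hz0, h0, hab1] <;> rfl
              · rw [h2, h2]
                rcases alte_z2 (B b u) with hi | hi <;> rcases alte_z2 (B a u) with hj | hj <;>
                  simp [hi, hj, hz0, h0, hba1] <;> rfl
            have h3 : B w (u + ((if B b u = 1 then a else 0) + (if B a u = 1 then b else 0))) = 0 :=
              h ⟨_, hu⟩
            rw [h2, h2] at h3
            have h4 : B w (if B b u = 1 then a else 0) = 0 := by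
              split_ifs
              · exact hwa
              · exact hz0 w
            have h5 : B w (if B a u = 1 then b else 0) = 0 := by
              split_ifs
              · exact hwb
              · exact hz0 w
            rw [h4, h5, add_zero, add_zero] at h3
            exact h3)
      refine ⟨r + 1, ?_⟩
      rw [hcard, hr, Nat.card_congr (AddSubgroup.addSubgroupOfEquivOfLe hRk).toEquiv, pow_succ]
      ring

theorem tAltE : S_AltE := by
  intro W _ _ B h1 h2 h0 R hR
  exact alte_aux _ W B rfl h1 h2 h0 R hR

end Pool.Agent.MP72S
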