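import Pool.Agent.Lib.MP_72e2e6_nt.Sm.P.Spec

/-!
# MP_72e2e6_nt, `Sm/P/AltP`: the pairing is alternating
-/

set_option autoImplicit false

namespace Pool.Agent.MP72S

open Finset

section

variable {G N P R : Type} [Group G] [TopologicalSpace G] [AddCommGroup N] [DistribMulAction G N]
  [AddCommGroup R] [DistribMulAction G R] {D : Dat G N P}

private theorem altP_half0 : half (0 : N) = 0 := by
  rw [half, if_pos rfl]

private theorem altP_half (hA : Ax D) (x : N) : 2 • half x = x := by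
  by_cases hx : x = 0
  · rw [hx, altP_half0, smul_zero]
  · have h : ∃ y : N, 2 • y = x := hA.dvs x
    rw [half, if_neg hx, dif_pos h]
    exact h.choose_spec

omit [DistribMulAction G R] in
private theorem altP_out (hA : Ax D) {E : ℕ → N → N → R} {m : ℕ}
    (hE1 : ∀ a : N, 2 ^ (m + 1) • a = 0 → E (m + 1) a 0 = 0)
    (hE2 : ∀ a : N, 2 ^ (m + 1) • a = 0 → E (m + 1) 0 a = 0)
    {χ : G → ZMod 2} (hχ : ∀ σ τ, χ (σ * τ) = χ σ + χ τ)
    {η : G → N} (hη : IsCo χ η) {v : P} (hv : v ∉ D.S)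
    (hm : ∀ g, 2 ^ (m + 1) • half (η g) = 0)
    (h1 : χ (D.tau v) = 0) (h2 : η (D.tau v) = 0) :
    D.iv (qx E m χ fun g => half (η g)) v = 0 := by
  have hone : χ 1 = 0 := by
    have h := hχ 1 1
    rw [mul_one] at h
    exact left_eq_add.1 h
  have ha1 : η 1 = 0 := by
    have h := hη 1 1
    rw [mul_one, tw, hone, sg_zero', one_smul] at h
    exact left_eq_add.1 h
  have h3 : ∀ i : ℕ, η (D.tau v ^ i) = 0 := by
    intro i
    induction i with
    | zero => rw [pow_zero, ha1]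
    | succ i ih => rw [pow_succ, hη, ih, h2, tw_map_zero, add_zero]
  have h4 : ∀ i : ℕ, χ (D.tau v ^ i) = 0 := by
    intro i
    induction i with
    | zero => rw [pow_zero, hone]
    | succ i ih => rw [pow_succ, hχ, ih, h1, add_zero]
  have h5 : ∀ (i : ℕ) (y : N), D.tau v ^ i • y = y := by
    intro i y
    induction i with
    | zero => rw [pow_zero, one_smul]
    | succ i ih => rw [pow_succ, mul_smul, hA.unr v hv, ih]
  have h6 : ∀ (i : ℕ) (y : N), tw χ (D.tau v ^ i) y = y := by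
    intro i y
    rw [tw, h4, sg_zero', h5]
  have h7 : qx E m χ (fun g => half (η g)) (D.phi v) (D.tau v) = 0 := by
    rw [qx, hη, h2, altP_half0, tw_map_zero, add_zero, add_zero, sub_self,
      hE1 _ (hm _), sub_self]
  have h8 : ∀ i : ℕ, qx E m χ (fun g => half (η g)) (D.tau v ^ (i + 1)) (D.tau v) = 0 := by
    intro i
    rw [qx, ← pow_succ, h3, h3, h2, altP_half0, tw_map_zero, add_zero, sub_self,
      hE1 _ (smul_zero _), sub_self]
  have h9 : qx E m χ (fun g => half (η g)) (D.tau v ^ D.nq v) (D.phi v) = 0 := by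
    rw [qx, hη, h3, h6, h6, altP_half0, zero_add, zero_add, sub_self, hE2 _ (hm _),
      hE1 _ (hm _), sub_self]
  rw [Dat.iv, h7, h9, sum_congr rfl fun i _ => h8 i, sum_const_zero, sub_zero, sub_zero]

end

theorem tAltP : S_Uq → S_Tai → S_Dk1 → S_ObR → S_EFa → S_IvR → S_Qc2 → S_Qlo → S_AltP := by
  intro hUq hTai hDk hObR hEFa _ hQc2 hQlo G N P ι R _ _ _ _ _ _ _ _ _ D E hf hA hA3 x hx k ξ η
    hξ hη
  classical
  obtain ⟨-, htau, hχ, hχl, -, -⟩ := hTai D hA x hx
  have hinj : Function.Injective (D.pl x) := (hDk (ι := ι) D hA).2.2.2.2.2.2.2.2.2 x hx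
  obtain ⟨hU1, -, hU3, -, hU5⟩ := hUq (ι := ι) D hA x
  obtain ⟨hEr, -⟩ := hEFa D E hf hA hA3
  have hξZ : ξ ∈ D.Z x := ⟨_, hη.hf⟩
  have hcoc : ∀ σ, D.coc x ξ σ = 2 • η σ := hU1 ξ _ hη.hf
  have hm : ∀ σ, 2 ^ (k + 2) • η σ = 0 := by
    intro σ
    have h1 := hU5 ξ hξZ (k + 1) hξ σ
    rw [hcoc, ← mul_smul, ← pow_succ] at h1
    exact h1
  have hm1 : ∀ σ, 2 ^ (k + 2 + 1) • half (η σ) = 0 := by
    intro σ
    rw [pow_succ, mul_smul, altP_half hA, hm]
  have hE1 : ∀ a : N, 2 ^ (k + 2 + 1) • a = 0 → E (k + 2 + 1) a 0 = 0 := by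
    intro a ha
    have h := hEr (k + 2 + 1) a 0 0 ha (smul_zero _) (smul_zero _)
    rw [add_zero] at h
    exact left_eq_add.1 h
  have hE2 : ∀ a : N, 2 ^ (k + 2 + 1) • a = 0 → E (k + 2 + 1) 0 a = 0 := by
    intro a ha
    have h := hA3.E_add (k + 2 + 1) 0 0 a (smul_zero _) (smul_zero _) ha
    rw [add_zero] at h
    exact left_eq_add.1 h
  have hC2 : IsC2 (fun g r => g • r) (qx E (k + 2) (D.chi x) fun g => half (η g)) := by
    refine hQc2 D E hf hA hA3 (k + 2) (by omega) (D.chi x) (fun g => half (η g)) hχ hχl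
      (hη.u.lc.comp half) hm1 fun g h => ?_
    rw [smul_sub, smul_add, ← tw_nsmul, altP_half hA, altP_half hA, altP_half hA, hη.u.co g h]
    abel
  have hobr := (hObR D hA x ξ η hη (fun j => quar (ξ j))
    ((hDk (ι := ι) D hA).2.2.2.2.2.2.1 <| ξ ·)).1
  have hq4 : ∀ y : N, 4 • quar y = y := (hDk (ι := ι) D hA).2.2.2.2.2.2.1
  have hloc : ∀ j, D.iv (qx E (k + 2) (D.chi x) fun g => half (η g)) (D.pl x j) =
      if D.lp (D.df x ξ η j) (D.coc x (2 ^ k • ξ)) (D.pl x j) = 0 then 0 else hf := by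
    intro j
    have h1 := hQlo D E hf hA hA3 (k + 2) (by omega) (D.chi x) hχ (D.pl x j)
      (D.df x ξ η j) η (quar (ξ j)) hη.u.co ?_ (hobr j _ (Or.inl rfl)) (hobr j _ (Or.inr rfl))
      (fun g => by rw [Dat.df]; abel) hm ?_
    · rw [h1, Dat.lp]
      have h2 : ∀ g, D.coc x (2 ^ k • ξ) g = 2 ^ (k + 2 - 1) • η g := by
        intro g
        rw [hU3 ξ hξZ, hcoc, ← mul_smul, ← pow_succ]
        rfl
      rw [h2, h2]
    · intro σ τ
      simp only [Dat.df, hη.u.co σ τ, tw_sub, tw_mul (hχ σ τ)]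
      abel
    · have h3 : 2 ^ (k + 2 + 1) • quar (ξ j) = 2 ^ (k + 1) • (4 • quar (ξ j)) := by
        rw [← mul_smul]
        congr 1
        ring
      rw [h3, hq4]
      exact congrFun hξ j
  have hout : ∀ v, v ∉ Set.range (D.pl x) →
      D.iv (qx E (k + 2) (D.chi x) fun g => half (η g)) v = 0 := by
    intro v hc
    refine altP_out hA hE1 hE2 hχ hη.u.co ?_ hm1 (htau v hc) (hη.u.ur v hc)
    intro hS
    exact hc ⟨Sum.inl ⟨v, hS⟩, rfl⟩
  have hrec := hA3.recR _ hC2 fun v => by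
    by_cases hc : v ∈ Set.range (D.pl x)
    · obtain ⟨j, rfl⟩ := hc
      rw [hloc j]
      split_ifs
      · exact smul_zero _
      · exact hA3.hf2
    · rw [hout v hc, smul_zero]
  have hsupp : Function.support
      (fun v => D.iv (qx E (k + 2) (D.chi x) fun g => half (η g)) v) ⊆
      ((univ.image (D.pl x) : Finset P) : Set P) := by
    intro v hv
    rw [Finset.coe_image, Finset.coe_univ, Set.image_univ]
    by_contra hc
    exact hv (hout v hc)
  rw [finsum_eq_sum_of_support_subset _ hsupp, sum_image fun a _ b _ h => hinj h,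
    sum_congr rfl fun j _ => hloc j] at hrec
  -- the homomorphism `ZMod 2 → R`
  let br : ZMod 2 →+ R :=
    { toFun := fun a => if a = 0 then 0 else hf
      map_zero' := if_pos rfl
      map_add' := by
        intro a b
        rcases zmod2 a with rfl | rfl <;> rcases zmod2 b with rfl | rfl
        · simp
        · simp
        · simp
        · rw [show (1 : ZMod 2) + 1 = 0 from rfl, if_pos rfl, if_neg one_ne_zero, ← two_nsmul,
            hA3.hf2] }
  have h1 : br (D.ob x ξ η (2 ^ k • ξ)) = 0 := by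
    rw [Dat.ob, map_sum]
    exact hrec
  by_contra hne
  have h2 : br (D.ob x ξ η (2 ^ k • ξ)) = hf := if_neg hne
  exact hA3.hf0 (h2.symm.trans h1)

end Pool.Agent.MP72S
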