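import Pool.Agent.Lib.MP_72e2e6_nt.Sm.P.Spec

/-!
# MP_72e2e6_nt, `Sm/P/EFa`: basic facts on the pairings
-/

namespace Pool.Agent.MP72S

open Finset

theorem tEFa : S_Bas → S_EFa := by
  intro hB G N P R _ _ _ _ _ _ D E hf hA h3
  have two_pow : ∀ (k : ℕ) (b : N), 1 ≤ k → 2 • b = 0 → 2 ^ k • b = 0 := by
    intro k b hk hb
    obtain ⟨j, rfl⟩ : ∃ j, k = j + 1 := ⟨k - 1, by omega⟩
    rw [pow_succ, mul_smul, hb, smul_zero]
  have hbilr : ∀ m (a b c : N), 2 ^ m • a = 0 → 2 ^ m • b = 0 → 2 ^ m • c = 0 →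
      E m a (b + c) = E m a b + E m a c := by
    intro m a b c ha hb hc
    have hbc : 2 ^ m • (b + c) = 0 := by rw [smul_add, hb, hc, add_zero]
    rw [h3.E_anti m a (b + c) ha hbc, h3.E_add m b c a hb hc ha, h3.E_anti m a b ha hb,
      h3.E_anti m a c ha hc, neg_add]
  have he0 : ∀ b : N, 2 • b = 0 → D.e 0 b = 0 := by
    intro b hb
    have h := hA.e_add 0 0 b (smul_zero _) (smul_zero _) hb
    rw [add_zero] at h
    exact left_eq_add.mp h
  have hb3 : ∀ m (a b : N), 1 ≤ m → 2 ^ m • a = 0 → 2 • b = 0 →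
      E m a b = if D.e (2 ^ (m - 1) • a) b = 0 then 0 else hf := by
    intro m
    induction m with
    | zero => intro a b h; omega
    | succ m ih =>
      intro a b _ ha hb
      rcases Nat.eq_zero_or_pos m with rfl | hm
      · rw [zero_add, pow_one] at ha
        rw [zero_add, show (1 : ℕ) - 1 = 0 from rfl, pow_zero, one_smul, h3.E_one a b ha hb]
      · rw [h3.E_two m a b hm ha (two_pow m b hm hb), ih (2 • a) b hm
          (by rw [← mul_smul, ← pow_succ, ha]) hb, ← mul_smul, ← pow_succ,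
          show m - 1 + 1 = m + 1 - 1 by omega]
  have hz : ∀ m (b : N), 2 ^ m • b = 0 → E m 0 b = 0 := by
    intro m b hb
    have h := h3.E_add m 0 0 b (smul_zero _) (smul_zero _) hb
    rw [add_zero] at h
    exact left_eq_add.mp h
  have hn : ∀ m (a b : N), 2 ^ m • a = 0 → 2 ^ m • b = 0 → E m (-a) b = -E m a b := by
    intro m a b ha hb
    have ha' : 2 ^ m • (-a) = 0 := by rw [smul_neg, ha, neg_zero]
    have h := h3.E_add m (-a) a b ha' ha hb
    rw [neg_add_cancel, hz m b hb] at h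
    exact eq_neg_of_add_eq_zero_left h.symm
  refine ⟨hbilr, ?_, hb3, ?_, ?_, ?_⟩
  · intro m a b hm ha hb
    have ha' : 2 ^ (m + 1) • a = 0 := by rw [pow_succ', mul_smul, ha, smul_zero]
    have hb' : 2 ^ m • 2 • b = 0 := by rw [← mul_smul, ← pow_succ, hb]
    rw [h3.E_anti (m + 1) a b ha' hb, h3.E_two m b a hm hb ha, ← h3.E_anti m a (2 • b) ha hb']
  · intro m a b hm ha hb
    rw [hb3 m a b (by omega) (two_pow m a (by omega) ha) hb, two_pow (m - 1) a (by omega) ha,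
      he0 b hb, if_pos rfl]
  · intro σ
    obtain ⟨⟨T₁, T₂, h1, h2, he, -⟩, -⟩ := hB D hA
    have hE : E 1 T₁ T₂ = hf := by
      rw [h3.E_one T₁ T₂ h1 h2, he, if_neg one_ne_zero]
    have h := h3.E_eqv 1 σ T₁ T₂ (by rw [pow_one, h1]) (by rw [pow_one, h2])
    rw [hA.tri σ T₁ h1, hA.tri σ T₂ h2, hE] at h
    exact h.symm
  · intro m χ σ a b ha hb
    have ha' : 2 ^ m • σ • a = 0 := by rw [smul_comm, ha, smul_zero]
    have hb' : 2 ^ m • σ • b = 0 := by rw [smul_comm, hb, smul_zero]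
    have hbn : 2 ^ m • -(σ • b) = 0 := by rw [smul_neg, hb', neg_zero]
    have han : 2 ^ m • -(σ • a) = 0 := by rw [smul_neg, ha', neg_zero]
    rw [tw, tw, ← h3.E_eqv m σ a b ha hb]
    rcases zmod2 (χ σ) with h | h
    · rw [h, sg_zero', sg_zero']
    · rw [h, sg_one', sg_one', hn m _ _ ha' hbn, h3.E_anti m _ _ ha' hbn, hn m _ _ hb' ha',
        neg_neg, ← h3.E_anti m _ _ ha' hb']

end Pool.Agent.MP72S
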