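import Pool.Agent.Lib.MP_72e2e6_nt.Sm.P.Spec

/-!
# MP_72e2e6_nt, `Sm/P/IvR`: the local invariant of a coboundary
-/

namespace Pool.Agent.MP72S

open Finset

theorem tIvR : S_IvR := by
  intro G N P R _ _ _ _ _ _ D E hf hA h3 v
  refine ⟨?_, ?_, ?_⟩
  · intro l
    have hp : ∀ (n : ℕ) (r : R), D.tau v ^ n • r = r := by
      intro n r
      induction n with
      | zero => rw [pow_zero, one_smul]
      | succ n ih => rw [pow_succ, mul_smul, h3.tauR, ih]
    have hq := hA.q4 v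
    have hq1 : D.nq v - 1 + 1 = D.nq v := by omega
    have hsum : ∀ n : ℕ, ∑ i ∈ range n, (l (D.tau v ^ (i + 1)) + D.tau v ^ (i + 1) • l (D.tau v) -
        l (D.tau v ^ (i + 1) * D.tau v)) = l (D.tau v) + n • l (D.tau v) -
          l (D.tau v ^ (n + 1)) := by
      intro n
      induction n with
      | zero => simp
      | succ n ih =>
        rw [sum_range_succ, ih, hp, ← pow_succ, succ_nsmul]
        abel
    change (l (D.phi v) + D.phi v • l (D.tau v) - l (D.phi v * D.tau v)) -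
      ∑ i ∈ range (D.nq v - 1), (l (D.tau v ^ (i + 1)) + D.tau v ^ (i + 1) • l (D.tau v) -
        l (D.tau v ^ (i + 1) * D.tau v)) -
      (l (D.tau v ^ D.nq v) + D.tau v ^ D.nq v • l (D.phi v) - l (D.tau v ^ D.nq v * D.phi v)) = 0
    have hqq : D.nq v • l (D.tau v) = (D.nq v - 1) • l (D.tau v) + l (D.tau v) := by
      rw [← succ_nsmul, hq1]
    rw [hsum, hp, h3.phiR, hA.rel v, hq1, hqq]
    abel
  · intro z z' h
    have ht : D.tau v ∈ Subgroup.closure {D.tau v, D.phi v} :=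
      Subgroup.subset_closure (Set.mem_insert _ _)
    have hp : D.phi v ∈ Subgroup.closure {D.tau v, D.phi v} :=
      Subgroup.subset_closure (Set.mem_insert_of_mem _ rfl)
    unfold Dat.iv
    rw [h _ hp _ ht, h _ (Subgroup.pow_mem _ ht _) _ hp,
      sum_congr rfl fun i _ => h _ (Subgroup.pow_mem _ ht (i + 1)) _ ht]
  · intro z z'
    change (z (D.phi v) (D.tau v) + z' (D.phi v) (D.tau v)) -
      ∑ i ∈ range (D.nq v - 1), (z (D.tau v ^ (i + 1)) (D.tau v) +
        z' (D.tau v ^ (i + 1)) (D.tau v)) -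
      (z (D.tau v ^ D.nq v) (D.phi v) + z' (D.tau v ^ D.nq v) (D.phi v)) =
      (z (D.phi v) (D.tau v) - ∑ i ∈ range (D.nq v - 1), z (D.tau v ^ (i + 1)) (D.tau v) -
        z (D.tau v ^ D.nq v) (D.phi v)) +
      (z' (D.phi v) (D.tau v) - ∑ i ∈ range (D.nq v - 1), z' (D.tau v ^ (i + 1)) (D.tau v) -
        z' (D.tau v ^ D.nq v) (D.phi v))
    rw [sum_add_distrib]
    generalize ∑ i ∈ range (D.nq v - 1), z (D.tau v ^ (i + 1)) (D.tau v) = s₁
    generalize ∑ i ∈ range (D.nq v - 1), z' (D.tau v ^ (i + 1)) (D.tau v) = s₂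
    abel

end Pool.Agent.MP72S
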