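import Pool.Agent.Lib.MP_72e2e6_nt.Sm.P.Spec

/-!
# MP_72e2e6_nt, `Sm/P/Ivc`: the local invariant of a cup product in `V`
-/

namespace Pool.Agent.MP72S

open Finset

theorem tIvc : S_Ivc := by
  intro G N P R _ _ _ _ _ _ D E hf hA h3 v χ a f hχ ha hf' at0 ap0 ft0 fp0
  -- the homomorphism `ZMod 2 → R`
  let ε : ZMod 2 →+ R := AddMonoidHom.mk' (fun y => if y = 0 then 0 else hf) (by
    intro y z
    have h2 : hf + hf = 0 := by
      rw [← two_nsmul, h3.hf2]
    rcases zmod2 y with rfl | rfl <;> rcases zmod2 z with rfl | rfl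
    · simp
    · simp
    · simp
    · rw [if_neg one_ne_zero, h2]
      exact if_pos rfl)
  have hε : ∀ y, (if y = 0 then (0 : R) else hf) = ε y := fun _ => rfl
  have hneg : ∀ y, -ε y = ε y := by
    intro y
    rw [← map_neg]
    rcases zmod2 y with rfl | rfl <;> rfl
  have hq := hA.q4 v
  have hpow : ∀ n : ℕ, a (D.tau v ^ (n + 1)) = (n + 1) • a (D.tau v) := by
    intro n
    induction n with
    | zero => rw [zero_add, pow_one, one_smul]
    | succ n ih =>
      rw [pow_succ, ha, ih, tw_two hA.tri at0, succ_nsmul _ (n + 1)]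
  have hadd : ∀ (n : ℕ) (y z : N), 2 • y = 0 → 2 • z = 0 → D.e (n • y) z = n • D.e y z := by
    intro n y z hy hz
    induction n with
    | zero =>
      rw [zero_smul, zero_smul]
      have h := hA.e_add 0 0 z (smul_zero _) (smul_zero _) hz
      rw [add_zero] at h
      exact left_eq_add.mp h
    | succ n ih =>
      rw [succ_nsmul, succ_nsmul, hA.e_add _ _ _ (by rw [smul_comm, hy, smul_zero]) hy hz, ih]
  obtain ⟨k, hk⟩ : ∃ k, D.nq v = 4 * k + 1 := ⟨D.nq v / 4, by omega⟩
  have haq : a (D.tau v ^ D.nq v) = a (D.tau v) := by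
    rw [hk, hpow, succ_nsmul, show 4 * k = (2 * k) * 2 by ring, mul_smul, at0, smul_zero,
      zero_add]
  have hs4 : ∀ (k : ℕ) (y : ZMod 2), ∑ i ∈ range (4 * k), (i + 1) • y = 0 := by
    intro k y
    induction k with
    | zero => simp
    | succ k ih =>
      rw [show 4 * (k + 1) = 4 * k + 1 + 1 + 1 + 1 by ring, sum_range_succ, sum_range_succ,
        sum_range_succ, sum_range_succ, ih, zero_add, ← add_smul, ← add_smul, ← add_smul,
        show 4 * k + 1 + (4 * k + 1 + 1) + (4 * k + 1 + 1 + 1) + (4 * k + 1 + 1 + 1 + 1) =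
          (8 * k + 5) * 2 by ring, mul_smul]
      rcases zmod2 y with rfl | rfl
      · simp
      · rw [show (2 : ℕ) • (1 : ZMod 2) = 0 from rfl, smul_zero]
  have hsum : ∑ i ∈ range (D.nq v - 1),
      (if D.e (a (D.tau v ^ (i + 1))) (f (D.tau v)) = 0 then (0 : R) else hf) = 0 := by
    rw [hk, Nat.add_sub_cancel]
    have h1 : ∀ i ∈ range (4 * k),
        (if D.e (a (D.tau v ^ (i + 1))) (f (D.tau v)) = 0 then (0 : R) else hf) =
          ε ((i + 1) • D.e (a (D.tau v)) (f (D.tau v))) := by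
      intro i _
      rw [hε, hpow, hadd _ _ _ at0 ft0]
    rw [sum_congr rfl h1, ← map_sum, hs4, map_zero]
  change (if D.e (a (D.phi v)) (f (D.tau v)) = 0 then (0 : R) else hf) -
    ∑ i ∈ range (D.nq v - 1),
      (if D.e (a (D.tau v ^ (i + 1))) (f (D.tau v)) = 0 then (0 : R) else hf) -
    (if D.e (a (D.tau v ^ D.nq v)) (f (D.phi v)) = 0 then (0 : R) else hf) = _
  rw [hsum, haq, hε, hε, hε, sub_zero, sub_eq_add_neg, hneg, ← map_add, add_comm]

end Pool.Agent.MP72S
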