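import Pool.Agent.Lib.MP_72e2e6_nt.Sm.P.Spec

/-!
# MP_72e2e6_nt, `Sm/P/Qbi`: the quadratic map of a sum
-/

namespace Pool.Agent.MP72S

open Finset

private theorem keyb {A R : Type} [AddCommGroup A] [AddCommGroup R] (F : A →+ A →+ R)
    (a b u z y₁ y₂ y₃ c : A) (anti : F b y₁ = -F y₁ b) (hu : u = a + b) (hz : z = 0)
    (hc : c = y₁ + y₂ - y₃) :
    F (a + y₁) (b + y₂) - F (u + y₃) c =
      (F a b - F u z) + (F y₁ y₂ - F y₃ c) + (F y₁ b + F y₁ b) -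
        (F a y₁ + F b y₂ - F u y₃) := by
  subst hc hu hz
  simp only [map_add, map_sub, AddMonoidHom.add_apply, anti, map_zero]
  abel

theorem tQbi : S_EFa → S_Qbi := by
  intro hEF G N P R _ _ _ _ _ _ D E hf hA h3 m hm χ Γ x y hx hco hy hc
  obtain ⟨Er, E2, E3, EV, -, Etw⟩ := hEF D E hf hA h3
  have h4 : ∀ (k : ℕ) (c : N), 2 ≤ k → 4 • c = 0 → 2 ^ k • c = 0 := by
    intro k c hk h
    obtain ⟨j, rfl⟩ : ∃ j, k = j + 2 := ⟨k - 2, by omega⟩
    rw [pow_add, mul_smul, show (2 : ℕ) ^ 2 = 4 from rfl, h, smul_zero]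
  have hV : ∀ c : N, 2 • c = 0 → 2 ^ (m + 1) • c = 0 := by
    intro c h
    rw [pow_succ, mul_smul, h, smul_zero]
  let F : tor N (m + 1) →+ tor N (m + 1) →+ R :=
    AddMonoidHom.mk' (fun a => AddMonoidHom.mk' (fun b => E (m + 1) a.1 b.1)
      (fun b c => Er (m + 1) a.1 b.1 c.1 a.2 b.2 c.2)) (by
        intro a b
        ext c
        exact h3.E_add (m + 1) a.1 b.1 c.1 a.2 b.2 c.2)
  have htw : ∀ σ (y : N), 2 ^ (m + 1) • y = 0 → 2 ^ (m + 1) • tw χ σ y = 0 := by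
    intro σ y h
    rw [← tw_nsmul, h, tw_map_zero]
  refine ⟨fun g => E (m + 1) (x g) (y g), ?_⟩
  intro g hg h hh
  have hgh := Γ.mul_mem hg hh
  have hb := htw g _ (hx h hh)
  have hy1 := h4 (m + 1) _ (by omega) (hy g hg)
  have hyh := h4 (m + 1) _ (by omega) (hy h hh)
  have hy2 := htw g _ hyh
  have hy3 := h4 (m + 1) _ (by omega) (hy _ hgh)
  have hc1 := hc g hg h hh
  have hgl : g • E (m + 1) (x h) (y h) = E (m + 1) (tw χ g (x h)) (tw χ g (y h)) :=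
    (Etw (m + 1) χ g _ _ (hx h hh) hyh).symm
  have hu := hco g hg h hh
  let a' : tor N (m + 1) := ⟨x g, hx g hg⟩
  let b' : tor N (m + 1) := ⟨tw χ g (x h), hb⟩
  let u' : tor N (m + 1) := ⟨x (g * h), hx _ hgh⟩
  let y₁ : tor N (m + 1) := ⟨y g, hy1⟩
  let y₂ : tor N (m + 1) := ⟨tw χ g (y h), hy2⟩
  let y₃ : tor N (m + 1) := ⟨y (g * h), hy3⟩
  have hz0 : x g + tw χ g (x h) - x (g * h) = 0 := by rw [hu, sub_self]
  let z' : tor N (m + 1) := ⟨x g + tw χ g (x h) - x (g * h), by rw [hz0]; exact zero_mem _⟩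
  let c' : tor N (m + 1) := ⟨y g + tw χ g (y h) - y (g * h), hV _ hc1⟩
  have key := keyb F a' b' u' z' y₁ y₂ y₃ c' (h3.E_anti _ _ _ b'.2 y₁.2) (Subtype.ext hu)
    (Subtype.ext hz0) rfl
  have h2E : E (m + 1) (y g) (tw χ g (x h)) + E (m + 1) (y g) (tw χ g (x h)) =
      if D.e (2 • y g) (2 ^ m • x h) = 0 then 0 else hf := by
    have hym : 2 ^ m • y g = 0 := h4 m _ hm (hy g hg)
    have hbm : 2 ^ m • 2 • tw χ g (x h) = 0 := by rw [← mul_smul, ← pow_succ, hb]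
    have h2y : 2 • 2 • y g = 0 := by rw [← mul_smul]; exact hy g hg
    have h2ym : 2 ^ m • 2 • y g = 0 := by rw [smul_comm, hym, smul_zero]
    have hxV : 2 • 2 ^ m • x h = 0 := by rw [← mul_smul, ← pow_succ', hx h hh]
    rw [E2 m _ _ (by omega) hym hb, ← h3.E_add m _ _ _ hym hym hbm, ← two_nsmul,
      h3.E_anti m _ _ h2ym hbm, E3 m _ _ (by omega) hbm h2y, ← mul_smul, ← pow_succ,
      show m - 1 + 1 = m by omega, ← tw_nsmul, tw_two hA.tri hxV, hA.e_sym _ _ hxV h2y]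
    split_ifs
    · rw [neg_zero]
    · have := h3.hf2
      rw [two_nsmul] at this
      exact neg_eq_of_add_eq_zero_left this
  have e1 : x g + y g + tw χ g (x h + y h) - (x (g * h) + y (g * h)) =
      y g + tw χ g (y h) - y (g * h) := by
    rw [hu, tw_add]
    abel
  change E (m + 1) (x g + y g) (tw χ g (x h + y h)) - E (m + 1) (x (g * h) + y (g * h))
      (x g + y g + tw χ g (x h + y h) - (x (g * h) + y (g * h))) = _ -
      (E (m + 1) (x g) (y g) + g • E (m + 1) (x h) (y h) - E (m + 1) (x (g * h)) (y (g * h)))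
  rw [e1, tw_add, hgl, ← h2E]
  exact key

end Pool.Agent.MP72S
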