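import Pool.Agent.Lib.MP_72e2e6_nt.Sm.P.Spec

/-!
# MP_72e2e6_nt, `Sm/P/Qc2`: `qx` of a half of a cocycle is a `2`-cocycle
-/

namespace Pool.Agent.MP72S

open Finset

private theorem keyc {A R : Type} [AddCommGroup A] [AddCommGroup R] (F : A →+ A →+ R)
    (a b d c₁ c₂ c₃ u v w c₄ : A) (anti : F c₁ d = -F d c₁) (hu : u = a + b - c₁)
    (hv : v = b + d - c₃) (hw : w = a + b + d - c₁ - c₂) (h4 : c₄ = c₁ + c₂ - c₃)
    (h11 : F c₁ c₁ = 0) (h12 : F c₁ c₂ = 0) (h21 : F c₂ c₁ = 0) (h22 : F c₂ c₂ = 0)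
    (h33 : F c₃ c₃ = 0) (h13 : F c₁ c₃ = 0) (h23 : F c₂ c₃ = 0) (h2 : F d c₁ + F d c₁ = 0) :
    F a b - F u c₁ + (F u d - F w c₂) = (F b d - F v c₃) + (F a v - F w c₄) := by
  subst hu hv hw h4
  simp only [map_add, map_sub, AddMonoidHom.add_apply, AddMonoidHom.sub_apply, h11, h12, h21,
    h22, h33, h13, h23, anti]
  have h2' : F d c₁ = -F d c₁ := eq_neg_of_add_eq_zero_left h2
  rw [← sub_eq_zero]
  abel_nf
  rw [two_zsmul, h2]

theorem tQc2 : S_EFa → S_Qc2 := by
  intro hEF G N P R _ _ _ _ _ _ _ D E hf hA h3 m hm χ x hχ lcχ lcx hx hc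
  obtain ⟨Er, -, -, EV, -, Etw⟩ := hEF D E hf hA h3
  have hV : ∀ c : N, 2 • c = 0 → 2 ^ (m + 1) • c = 0 := by
    intro c h
    rw [pow_succ, mul_smul, h, smul_zero]
  -- the pairing as a biadditive map on `N[2^(m+1)]`
  let F : tor N (m + 1) →+ tor N (m + 1) →+ R :=
    AddMonoidHom.mk' (fun a => AddMonoidHom.mk' (fun b => E (m + 1) a.1 b.1)
      (fun b c => Er (m + 1) a.1 b.1 c.1 a.2 b.2 c.2)) (by
        intro a b
        ext c
        exact h3.E_add (m + 1) a.1 b.1 c.1 a.2 b.2 c.2)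
  have htw : ∀ σ (y : N), 2 ^ (m + 1) • y = 0 → 2 ^ (m + 1) • tw χ σ y = 0 := by
    intro σ y h
    rw [← tw_nsmul, h, tw_map_zero]
  have hFV : ∀ a b : tor N (m + 1), 2 • a.1 = 0 → 2 • b.1 = 0 → F a b = 0 := by
    intro a b ha hb
    exact EV (m + 1) a.1 b.1 (by omega) ha hb
  refine ⟨?_, ?_⟩
  · have h1 : IsLocallyConstant fun p : G × G => x p.1 := lcx.comp_continuous continuous_fst
    have h1' : IsLocallyConstant fun p : G × G => χ p.1 := lcχ.comp_continuous continuous_fst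
    have h2 : IsLocallyConstant fun p : G × G => x p.2 := lcx.comp_continuous continuous_snd
    have h4 : IsLocallyConstant fun p : G × G => x (p.1 * p.2) :=
      lcx.comp_continuous continuous_mul
    have h5 : IsLocallyConstant fun p : G × G => p.1 • x p.2 := by
      rw [IsLocallyConstant.iff_eventually_eq]
      intro p
      have hp := (IsLocallyConstant.iff_eventually_eq _).mp h2 p
      have hp' := (IsLocallyConstant.iff_eventually_eq _).mp
        ((hA.act (x p.2)).comp_continuous (continuous_fst : Continuous (Prod.fst : G × G → G))) p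
      filter_upwards [hp, hp'] with q hq hq'
      rw [hq]
      exact hq'
    have h6 : IsLocallyConstant fun p : G × G => tw χ p.1 (x p.2) := h1'.comp₂ h5 sg
    exact (h1.comp₂ h6 Prod.mk).comp₂ h4
      (fun ab u => E (m + 1) ab.1 ab.2 - E (m + 1) u (ab.1 + ab.2 - u))
  · intro g h k
    have hb := htw g _ (hx h)
    have hd := htw (g * h) _ (hx k)
    have hv := htw g _ (hx (h * k))
    have hd' : tw χ (g * h) (x k) = tw χ g (tw χ h (x k)) := tw_mul (hχ g h) _
    have hc1 := hc g h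
    have hc2 := hc (g * h) k
    have hc3 : 2 • (tw χ g (x h) + tw χ (g * h) (x k) - tw χ g (x (h * k))) = 0 := by
      rw [hd', ← tw_add, ← tw_sub, ← tw_nsmul, hc h k, tw_map_zero]
    have hc4 := hc g (h * k)
    rw [← mul_assoc] at hc4
    have hgz : g • qx E m χ x h k =
        E (m + 1) (tw χ g (x h)) (tw χ (g * h) (x k)) -
          E (m + 1) (tw χ g (x (h * k)))
            (tw χ g (x h) + tw χ (g * h) (x k) - tw χ g (x (h * k))) := by
      rw [qx, smul_sub, ← Etw (m + 1) χ g _ _ (hx h) (htw h _ (hx k)),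
        ← Etw (m + 1) χ g _ _ (hx (h * k)) (hV _ (hc h k)), hd', tw_sub, tw_add]
    rw [hgz, qx, qx, qx, ← mul_assoc]
    let a' : tor N (m + 1) := ⟨x g, hx g⟩
    let b' : tor N (m + 1) := ⟨tw χ g (x h), hb⟩
    let d' : tor N (m + 1) := ⟨tw χ (g * h) (x k), hd⟩
    let u' : tor N (m + 1) := ⟨x (g * h), hx _⟩
    let v' : tor N (m + 1) := ⟨tw χ g (x (h * k)), hv⟩
    let w' : tor N (m + 1) := ⟨x (g * h * k), hx _⟩
    let c₁ : tor N (m + 1) := ⟨x g + tw χ g (x h) - x (g * h), hV _ hc1⟩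
    let c₂ : tor N (m + 1) := ⟨x (g * h) + tw χ (g * h) (x k) - x (g * h * k), hV _ hc2⟩
    let c₃ : tor N (m + 1) :=
      ⟨tw χ g (x h) + tw χ (g * h) (x k) - tw χ g (x (h * k)), hV _ hc3⟩
    let c₄ : tor N (m + 1) := ⟨x g + tw χ g (x (h * k)) - x (g * h * k), hV _ hc4⟩
    have h2 : F d' c₁ + F d' c₁ = 0 := by
      rw [← map_add]
      have hz : c₁ + c₁ = 0 := by
        apply Subtype.ext
        rw [← two_nsmul]
        exact hc1
      rw [hz, map_zero]
    have hu : u' = a' + b' - c₁ := by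
      apply Subtype.ext
      change x (g * h) = x g + tw χ g (x h) - (x g + tw χ g (x h) - x (g * h))
      abel
    have hv' : v' = b' + d' - c₃ := by
      apply Subtype.ext
      change tw χ g (x (h * k)) = tw χ g (x h) + tw χ (g * h) (x k) -
        (tw χ g (x h) + tw χ (g * h) (x k) - tw χ g (x (h * k)))
      abel
    have hw : w' = a' + b' + d' - c₁ - c₂ := by
      apply Subtype.ext
      change x (g * h * k) = x g + tw χ g (x h) + tw χ (g * h) (x k) -
        (x g + tw χ g (x h) - x (g * h)) - (x (g * h) + tw χ (g * h) (x k) - x (g * h * k))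
      abel
    have hc4' : c₄ = c₁ + c₂ - c₃ := by
      apply Subtype.ext
      change x g + tw χ g (x (h * k)) - x (g * h * k) = (x g + tw χ g (x h) - x (g * h)) +
        (x (g * h) + tw χ (g * h) (x k) - x (g * h * k)) -
        (tw χ g (x h) + tw χ (g * h) (x k) - tw χ g (x (h * k)))
      abel
    exact keyc F a' b' d' c₁ c₂ c₃ u' v' w' c₄ (h3.E_anti _ _ _ c₁.2 d'.2) hu hv' hw hc4'
      (hFV _ _ hc1 hc1) (hFV _ _ hc1 hc2) (hFV _ _ hc2 hc1) (hFV _ _ hc2 hc2)
      (hFV _ _ hc3 hc3) (hFV _ _ hc1 hc3) (hFV _ _ hc2 hc3) h2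

end Pool.Agent.MP72S
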