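import Pool.Agent.Lib.MP_72e2e6_nt.Sm.P.Spec

/-!
# MP_72e2e6_nt, `Sm/P/Qch`: change of the half
-/

namespace Pool.Agent.MP72S

open Finset

private theorem keyh {A R : Type} [AddCommGroup A] [AddCommGroup R] (F : A →+ A →+ R)
    (a b c u y₁ y₂ y₃ c' : A) (anti : F y₁ b = -F b y₁) (hu : u = a + b - c)
    (hc' : c' = c + y₁ + y₂ - y₃) (h1 : F y₁ y₂ = 0) (h2 : F c y₁ = 0) (h3 : F c y₂ = 0)
    (h5 : F y₃ c' = 0) (hb : F b y₁ + F b y₁ = 0) :
    F (a + y₁) (b + y₂) - F (u + y₃) c' =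
      F a b - F u c + (-F a y₁ + -F b y₂ - -F u y₃) := by
  rw [map_add F u y₃, AddMonoidHom.add_apply, h5]
  subst hc' hu
  simp only [map_add, map_sub, AddMonoidHom.add_apply, AddMonoidHom.sub_apply, h1, h2, h3, anti]
  rw [← sub_eq_zero]
  abel_nf
  rw [neg_smul, two_zsmul, hb, neg_zero]

theorem tQch : S_EFa → S_Qch := by
  intro hEF G N P R _ _ _ _ _ _ D E hf hA h3 m hm χ Γ x x' hx hy hc
  obtain ⟨Er, -, -, EV, -, Etw⟩ := hEF D E hf hA h3
  have hV : ∀ c : N, 2 • c = 0 → 2 ^ (m + 1) • c = 0 := by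
    intro c h
    rw [pow_succ, mul_smul, h, smul_zero]
  let F : tor N (m + 1) →+ tor N (m + 1) →+ R :=
    AddMonoidHom.mk' (fun a => AddMonoidHom.mk' (fun b => E (m + 1) a.1 b.1)
      (fun b c => Er (m + 1) a.1 b.1 c.1 a.2 b.2 c.2)) (by
        intro a b
        ext c
        exact h3.E_add (m + 1) a.1 b.1 c.1 a.2 b.2 c.2)
  have htw : ∀ σ (y : N), 2 ^ (m + 1) • y = 0 → 2 ^ (m + 1) • tw χ σ y = 0 := by
    intro σ y h
    rw [← tw_nsmul, h, tw_map_zero]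
  have hFV : ∀ a b : tor N (m + 1), 2 • a.1 = 0 → 2 • b.1 = 0 → F a b = 0 := by
    intro a b ha hb
    exact EV (m + 1) a.1 b.1 (by omega) ha hb
  refine ⟨fun g => -E (m + 1) (x g) (x' g - x g), ?_⟩
  intro g hg h hh
  have hgh := Γ.mul_mem hg hh
  have hb := htw g _ (hx h hh)
  have hc1 := hc g hg h hh
  have hy1 := hy g hg
  have hy2 : 2 • (tw χ g (x' h) - tw χ g (x h)) = 0 := by
    rw [← tw_sub, ← tw_nsmul, hy h hh, tw_map_zero]
  have hy3 := hy _ hgh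
  have hc' : 2 • (x' g + tw χ g (x' h) - x' (g * h)) = 0 := by
    have : x' g + tw χ g (x' h) - x' (g * h) = (x g + tw χ g (x h) - x (g * h)) +
        (x' g - x g) + (tw χ g (x' h) - tw χ g (x h)) - (x' (g * h) - x (g * h)) := by abel
    rw [this, smul_sub, smul_add, smul_add, hc1, hy1, hy2, hy3]
    simp
  have hgl : g • -E (m + 1) (x h) (x' h - x h) =
      -E (m + 1) (tw χ g (x h)) (tw χ g (x' h) - tw χ g (x h)) := by
    rw [smul_neg, ← Etw (m + 1) χ g _ _ (hx h hh) (hV _ (hy h hh)), tw_sub]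
  let a' : tor N (m + 1) := ⟨x g, hx g hg⟩
  let b' : tor N (m + 1) := ⟨tw χ g (x h), hb⟩
  let u' : tor N (m + 1) := ⟨x (g * h), hx _ hgh⟩
  let c₁ : tor N (m + 1) := ⟨x g + tw χ g (x h) - x (g * h), hV _ hc1⟩
  let y₁ : tor N (m + 1) := ⟨x' g - x g, hV _ hy1⟩
  let y₂ : tor N (m + 1) := ⟨tw χ g (x' h) - tw χ g (x h), hV _ hy2⟩
  let y₃ : tor N (m + 1) := ⟨x' (g * h) - x (g * h), hV _ hy3⟩
  let c₂ : tor N (m + 1) := ⟨x' g + tw χ g (x' h) - x' (g * h), hV _ hc'⟩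
  have hbb : F b' y₁ + F b' y₁ = 0 := by
    rw [← map_add]
    have hz : y₁ + y₁ = 0 := by
      apply Subtype.ext
      rw [← two_nsmul]
      exact hy1
    rw [hz, map_zero]
  have hu : u' = a' + b' - c₁ := by
    apply Subtype.ext
    change x (g * h) = x g + tw χ g (x h) - (x g + tw χ g (x h) - x (g * h))
    abel
  have hc'' : c₂ = c₁ + y₁ + y₂ - y₃ := by
    apply Subtype.ext
    change x' g + tw χ g (x' h) - x' (g * h) = (x g + tw χ g (x h) - x (g * h)) +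
        (x' g - x g) + (tw χ g (x' h) - tw χ g (x h)) - (x' (g * h) - x (g * h))
    abel
  have key := keyh F a' b' c₁ u' y₁ y₂ y₃ c₂ (h3.E_anti _ _ _ y₁.2 b'.2) hu hc''
    (hFV _ _ hy1 hy2) (hFV _ _ hc1 hy1) (hFV _ _ hc1 hy2) (hFV _ _ hy3 hc') hbb
  have e1 : x g + (x' g - x g) = x' g := by abel
  have e2 : tw χ g (x h) + (tw χ g (x' h) - tw χ g (x h)) = tw χ g (x' h) := by abel
  have e3 : x (g * h) + (x' (g * h) - x (g * h)) = x' (g * h) := by abel
  have key' : E (m + 1) (x g + (x' g - x g))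
      (tw χ g (x h) + (tw χ g (x' h) - tw χ g (x h))) -
      E (m + 1) (x (g * h) + (x' (g * h) - x (g * h)))
        (x' g + tw χ g (x' h) - x' (g * h)) =
      E (m + 1) (x g) (tw χ g (x h)) -
        E (m + 1) (x (g * h)) (x g + tw χ g (x h) - x (g * h)) +
      (-E (m + 1) (x g) (x' g - x g) +
        -E (m + 1) (tw χ g (x h)) (tw χ g (x' h) - tw χ g (x h)) -
        -E (m + 1) (x (g * h)) (x' (g * h) - x (g * h))) := key
  rw [e1, e2, e3] at key'
  change _ = qx E m χ x g h + (-E (m + 1) (x g) (x' g - x g) +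
    g • -E (m + 1) (x h) (x' h - x h) - -E (m + 1) (x (g * h)) (x' (g * h) - x (g * h)))
  rw [hgl, qx, qx]
  exact key'

end Pool.Agent.MP72S
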