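import Pool.Agent.Lib.MP_72e2e6_nt.Sm.P.Spec

/-!
# MP_72e2e6_nt, `Sm/P`, module `Qka`
-/

namespace Pool.Agent.MP72S

private theorem qka_z2 {i : ZMod 2} (h : i = i + i) : i = 0 := by
  revert i
  decide

theorem tQka : S_EFa → S_Qka := by
  intro hE G N P R _ _ _ _ _ _ D E hf ax ax3 m hm χ hχ Γ
  obtain ⟨b1, b2, b3, -, -, b6⟩ := hE D E hf ax ax3
  have hhalf : ∀ x : N, 2 • half x = x := by
    intro x
    unfold half
    split_ifs with h0 h1
    · rw [h0, smul_zero]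
    · exact h1.choose_spec
    · exact absurd (ax.dvs x) h1
  have hE0 : ∀ k (a : N), 2 ^ k • a = 0 → E k a 0 = 0 := by
    intro k a ha
    have h := b1 k a 0 0 ha (smul_zero _) (smul_zero _)
    rw [add_zero] at h
    exact left_eq_add.1 h
  have hE0' : ∀ k (a : N), 2 ^ k • a = 0 → E k 0 a = 0 := by
    intro k a ha
    have h := ax3.E_add k 0 0 a (smul_zero _) (smul_zero _) ha
    rw [add_zero] at h
    exact left_eq_add.1 h
  have he0 : ∀ c : N, 2 • c = 0 → D.e 0 c = 0 := by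
    intro c hc
    have h := ax.e_add 0 0 c (smul_zero _) (smul_zero _) hc
    rw [add_zero] at h
    exact qka_z2 h
  have hneg : -hf = hf := by
    have := ax3.hf2
    rw [two_nsmul] at this
    exact neg_eq_of_add_eq_zero_left this
  constructor
  · intro Q hQ hg
    refine ⟨fun g => E (m + 2) Q (tw χ g (half Q) - half Q), fun g hgΓ h hhΓ => ?_⟩
    have hgh : g * h ∈ Γ := Γ.mul_mem hgΓ hhΓ
    have key : ∀ g ∈ Γ, 2 ^ (m + 2) • (tw χ g (half Q) - half Q) = 0 := by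
      intro g hgΓ
      rw [pow_succ, mul_smul, smul_sub, ← tw_nsmul, hhalf]
      exact hg g hgΓ
    have hco : (tw χ g Q - Q) + tw χ g (tw χ h Q - Q) - (tw χ (g * h) Q - Q) = 0 := by
      rw [tw_mul (hχ g h), tw_sub]
      abel
    have hdec : tw χ (g * h) (half Q) - half Q =
        (tw χ g (half Q) - half Q) + tw χ g (tw χ h (half Q) - half Q) := by
      rw [tw_mul (hχ g h), tw_sub]
      abel
    have htw : ∀ (k : ℕ) (g : G) (a : N), k • a = 0 → k • tw χ g a = 0 := by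
      intro k g a ha
      rw [← tw_nsmul, ha, tw_map_zero]
    have e1 : g • E (m + 2) Q (tw χ h (half Q) - half Q) =
        E (m + 2) (tw χ g Q) (tw χ g (tw χ h (half Q) - half Q)) :=
      (b6 (m + 2) χ g Q _ hQ (key h hhΓ)).symm
    have e2 : E (m + 2) (tw χ g Q) (tw χ g (tw χ h (half Q) - half Q)) =
        E (m + 2) (tw χ g Q - Q) (tw χ g (tw χ h (half Q) - half Q)) +
          E (m + 2) Q (tw χ g (tw χ h (half Q) - half Q)) := by
      rw [← ax3.E_add (m + 2) _ _ _ _ hQ (htw _ _ _ (key h hhΓ)), sub_add_cancel]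
      rw [smul_sub, htw _ _ _ hQ, hQ, sub_zero]
    have e3 : E (m + 2) Q (tw χ (g * h) (half Q) - half Q) =
        E (m + 2) Q (tw χ g (half Q) - half Q) +
          E (m + 2) Q (tw χ g (tw χ h (half Q) - half Q)) := by
      rw [hdec, b1 (m + 2) Q _ _ hQ (key g hgΓ) (htw _ _ _ (key h hhΓ))]
    have e4 : E (m + 2) (tw χ g Q - Q) (tw χ g (tw χ h (half Q) - half Q)) =
        E (m + 1) (tw χ g Q - Q) (tw χ g (tw χ h Q - Q)) := by
      rw [b2 (m + 1) _ _ (by omega) (hg g hgΓ) (htw _ _ _ (key h hhΓ)), ← tw_nsmul, smul_sub,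
        ← tw_nsmul, hhalf]
    have e5 : qx E m χ (fun σ => tw χ σ Q - Q) g h =
        E (m + 1) (tw χ g Q - Q) (tw χ g (tw χ h Q - Q)) := by
      unfold qx
      simp only
      rw [hco, hE0 (m + 1) _ (hg _ hgh), sub_zero]
    rw [e5, e1, e2]
    beta_reduce
    rw [e3, e4]
    abel
  · intro y hy hc g hgΓ h hhΓ
    have hgh : g * h ∈ Γ := Γ.mul_mem hgΓ hhΓ
    have h4 : ∀ (k : ℕ) (a : N), 2 ≤ k → 4 • a = 0 → 2 ^ k • a = 0 := by
      intro k a hk ha
      obtain ⟨j, rfl⟩ := Nat.exists_eq_add_of_le' hk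
      rw [pow_add, show (2 : ℕ) ^ 2 = 4 from rfl, mul_smul, ha, smul_zero]
    have h4t : 4 • tw χ g (y h) = 0 := by
      rw [← tw_nsmul, hy h hhΓ, tw_map_zero]
    have h2y : ∀ g ∈ Γ, 2 • (2 • y g) = 0 := by
      intro g hg
      rw [smul_smul]
      exact hy g hg
    have e1 : E (m + 1) (y (g * h)) (y g + tw χ g (y h) - y (g * h)) = 0 := by
      rw [b3 (m + 1) _ _ (by omega) (h4 _ _ (by omega) (hy _ hgh)) (hc g hgΓ h hhΓ),
        Nat.add_sub_cancel, h4 m _ hm (hy _ hgh), he0 _ (hc g hgΓ h hhΓ), if_pos rfl]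
    have e2 : E (m + 1) (y g) (tw χ g (y h)) =
        if D.e (2 ^ (m - 1) • tw χ g (y h)) (2 • y g) = 0 then 0 else hf := by
      rw [ax3.E_two m _ _ (by omega) (h4 _ _ (by omega) (hy g hgΓ)) (h4 m _ hm h4t),
        ax3.E_anti m _ _ _ (h4 m _ hm h4t), b3 m _ _ (by omega) (h4 m _ hm h4t) (h2y g hgΓ)]
      · split_ifs
        · exact neg_zero
        · exact hneg
      · rw [smul_comm, h4 m _ hm (hy g hgΓ), smul_zero]
    unfold qx
    rw [e1, e2, sub_zero]
    by_cases hm2 : m = 2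
    · subst hm2
      rw [if_pos rfl, show 2 - 1 = 1 from rfl, pow_one, ← tw_nsmul,
        tw_two ax.tri (h2y h hhΓ), ax.e_sym _ _ (h2y h hhΓ) (h2y g hgΓ)]
    · rw [if_neg hm2, h4 (m - 1) _ (by omega) h4t, he0 _ (h2y g hgΓ), if_pos rfl]

end Pool.Agent.MP72S
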