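import Pool.Agent.Lib.MP_72e2e6_nt.Sm.A.Spec3

/-!
# MP_72e2e6_nt, `Sm/P`: the alternating pairing (parity)

`R` is the value group of the pairings `E m` on `N[2^m]` (roots of unity, written additively), `hf`
its element of order two. For a half `x` of a cocycle `η` (with respect to the character `χ`) the
`2`-cochain `qx` below represents the image of `η` under the connecting map of a Heisenberg
extension of `N[2^m]` by `R`. Facts used everywhere: (a) `E m` is biadditive (`E_add`, `E_anti`) on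
`N[2^m]`; (b) `E (m+1) a b = E m (2 a) b` if `2^m b = 0` and `= E m a (2 b)` if `2^m a = 0`
(`E_two`, `E_anti`, `m ≥ 1`); iterating, for `b ∈ V`, `E m a b = E 1 (2^(m-1) a) b`; in particular
`E m a b = 0` for `a, b ∈ V`, `m ≥ 2`, and `E m a b ∈ {0, hf}` for `b ∈ V`, so that signs do not
matter for such values; (c) `σ • hf = hf` (`hf = E 1 T₁ T₂`, `E_eqv`, `tri`);
(d) `E m (tw χ σ a) (tw χ σ b) = σ • E m a b`.
-/

namespace Pool.Agent.MP72S

open Finset

/-- The `2`-cochain of the Heisenberg extension. -/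
def qx {G N R : Type} [Group G] [AddCommGroup N] [DistribMulAction G N] [AddCommGroup R]
    (E : ℕ → N → N → R) (m : ℕ) (χ : G → ZMod 2) (x : G → N) (g h : G) : R :=
  E (m + 1) (x g) (tw χ g (x h)) - E (m + 1) (x (g * h)) (x g + tw χ g (x h) - x (g * h))

/-- Module `EFa`: the facts (b), (c), (d) of the introduction. PROOF. (b1) `E_anti` and `E_two`.
(b2) Induction on `m` with `E_two` (`2 b = 0`, so `2^j b = 0` for `j ≥ 1`). (b3) from (b2) and
`E_one`; for `m ≥ 2` and `a ∈ V` we have `2^(m-1) a = 0` and `E 1 0 b = 0`. (c), (d): `tw χ σ` is `σ`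
or `-σ`. -/
def S_EFa : Prop :=
  ∀ {G N P R : Type} [Group G] [TopologicalSpace G] [AddCommGroup N] [DistribMulAction G N]
    [AddCommGroup R] [DistribMulAction G R] (D : Dat G N P) (E : ℕ → N → N → R) (hf : R),
    Ax D → Ax3 D E hf →
    (∀ m (a b c : N), 2 ^ m • a = 0 → 2 ^ m • b = 0 → 2 ^ m • c = 0 →
      E m a (b + c) = E m a b + E m a c) ∧
    (∀ m (a b : N), 1 ≤ m → 2 ^ m • a = 0 → 2 ^ (m + 1) • b = 0 →
      E (m + 1) a b = E m a (2 • b)) ∧
    (∀ m (a b : N), 1 ≤ m → 2 ^ m • a = 0 → 2 • b = 0 →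
      E m a b = if D.e (2 ^ (m - 1) • a) b = 0 then 0 else hf) ∧
    (∀ m (a b : N), 2 ≤ m → 2 • a = 0 → 2 • b = 0 → E m a b = 0) ∧
    (∀ σ : G, σ • hf = hf) ∧
    (∀ m (χ : G → ZMod 2) (σ : G) (a b : N), 2 ^ m • a = 0 → 2 ^ m • b = 0 →
      E m (tw χ σ a) (tw χ σ b) = σ • E m a b)

/-- Module `IvR` (the local invariant of a coboundary; locality). PROOF. As `Ivd`, with
`φ • r = q • r`, `τ • r = r`: `iv = (l φ + q l τ - l (φ τ)) - (q l τ - l (τ ^ q)) - (l (τ ^ q) + l φ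
- l (τ ^ q φ))`. The second statement: all arguments in the definition of `iv` are in the subgroup
generated by `τ` and `φ`. -/
def S_IvR : Prop :=
  ∀ {G N P R : Type} [Group G] [TopologicalSpace G] [AddCommGroup N] [DistribMulAction G N]
    [AddCommGroup R] [DistribMulAction G R] (D : Dat G N P) (E : ℕ → N → N → R) (hf : R),
    Ax D → Ax3 D E hf → ∀ v,
    (∀ l : G → R, D.iv (fun σ τ => l σ + σ • l τ - l (σ * τ)) v = 0) ∧
    (∀ z z' : G → G → R, (∀ g ∈ Subgroup.closure {D.tau v, D.phi v},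
      ∀ h ∈ Subgroup.closure {D.tau v, D.phi v}, z g h = z' g h) → D.iv z v = D.iv z' v) ∧
    (∀ z z' : G → G → R, D.iv (fun g h => z g h + z' g h) v = D.iv z v + D.iv z' v)

/-- Module `Ivc` (the local invariant of a cup product in `V`). PROOF. On the subgroup generated by
`τ` and `φ` both `a` and `f` are homomorphisms to `V`: `a (τ ^ i) = i a τ`. So `iv` is `hf` times
`e (aφ) (fτ) - ∑_{i=1}^{q-1} i e (aτ) (fτ) - q e (aτ) (fφ)` and `q (q-1) / 2` is even, `q` odd. -/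
def S_Ivc : Prop :=
  ∀ {G N P R : Type} [Group G] [TopologicalSpace G] [AddCommGroup N] [DistribMulAction G N]
    [AddCommGroup R] [DistribMulAction G R] (D : Dat G N P) (E : ℕ → N → N → R) (hf : R),
    Ax D → Ax3 D E hf → ∀ v (χ : G → ZMod 2) (a f : G → N), (∀ σ τ, χ (σ * τ) = χ σ + χ τ) →
    IsCo χ a → IsCo χ f → 2 • a (D.tau v) = 0 → 2 • a (D.phi v) = 0 → 2 • f (D.tau v) = 0 →
    2 • f (D.phi v) = 0 →
    D.iv (fun g h => if D.e (a g) (f h) = 0 then (0 : R) else hf) v =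
      if D.e (a (D.tau v)) (f (D.phi v)) + D.e (a (D.phi v)) (f (D.tau v)) = 0 then 0 else hf

/-- Module `Qc2` (`qx` of a half of a cocycle is a `2`-cocycle). PROOF. Put `a = x g`,
`b = tw g (x h)`, `d = tw (g h) (x k)`, `u = x (g h)`, `v = tw g (x (h k))`, `w = x (g h k)`,
`c₁ = a + b - u`, `c₂ = u + d - w`, `c₃ = b + d - v` (this is `tw g` of `x h + tw h (x k) - x (h k)`
`∈ V`, so equal to it), `c₄ = a + v - w`, all in `V`, `c₁ + c₂ = c₃ + c₄`. The difference of the two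
sides of the cocycle identity is `-E u c₁ - E c₁ d - E w c₂ + E v c₃ + E a c₃ + E w c₄`, `E = E
(m+1)`; by (b) (values in `{0, hf}`, `E = 0` on `V × V`) it is `E (a+b+d) (c₁+c₂+c₃+c₄) = 0`.
Locally constant: `actR`, `act`, and the continuity of the multiplication. -/
def S_Qc2 : Prop :=
  ∀ {G N P R : Type} [Group G] [TopologicalSpace G] [IsTopologicalGroup G] [AddCommGroup N]
    [DistribMulAction G N] [AddCommGroup R] [DistribMulAction G R] (D : Dat G N P)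
    (E : ℕ → N → N → R) (hf : R), Ax D → Ax3 D E hf → ∀ m, 1 ≤ m → ∀ (χ : G → ZMod 2)
    (x : G → N), (∀ σ τ, χ (σ * τ) = χ σ + χ τ) → IsLocallyConstant χ → IsLocallyConstant x →
    (∀ g, 2 ^ (m + 1) • x g = 0) → (∀ g h, 2 • (x g + tw χ g (x h) - x (g * h)) = 0) →
    IsC2 (fun g r => g • r) (qx E m χ x)

/-- Module `Qch` (change of the half). `Γ` is a subgroup. PROOF. `l g = E (m+1) (x g) (y g)` where
`y = x' - x`. Expand `qx x' (g, h) - qx x (g, h) = E (x g) (y h) + E (y g) (tw g (x h)) + E (x (g h))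
(y g + y h + y (g h))` (values in `{0, hf}`) and substitute `x (g h) = x g + tw g (x h) - c`,
`c ∈ V`, in the first two summands of the last term; `E (tw g (x h)) (y h) = E (tw g (x h)) (tw g
(y h)) = g • E (x h) (y h)`. -/
def S_Qch : Prop :=
  ∀ {G N P R : Type} [Group G] [TopologicalSpace G] [AddCommGroup N]
    [DistribMulAction G N] [AddCommGroup R] [DistribMulAction G R] (D : Dat G N P)
    (E : ℕ → N → N → R) (hf : R), Ax D → Ax3 D E hf → ∀ m, 1 ≤ m → ∀ (χ : G → ZMod 2)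
    (Γ : Subgroup G) (x x' : G → N), (∀ g ∈ Γ, 2 ^ (m + 1) • x g = 0) →
    (∀ g ∈ Γ, 2 • (x' g - x g) = 0) →
    (∀ g ∈ Γ, ∀ h ∈ Γ, 2 • (x g + tw χ g (x h) - x (g * h)) = 0) →
    ∃ l : G → R, ∀ g ∈ Γ, ∀ h ∈ Γ,
      qx E m χ x' g h = qx E m χ x g h + (l g + g • l h - l (g * h))

/-- Module `Qbi` (the quadratic map of a sum). `x` is a cocycle on `Γ`, `y` a half of a cocycle with
values in `V`. PROOF. Expand; with `x (g h) = x g + tw g (x h)`, `c = y g + tw g (y h) - y (g h)`: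
`qx (x+y) = qx x + qx y + [E (x g) (tw g (y h)) + E (y g) (tw g (x h)) - E (x (g h)) c]` and the
bracket is `2 E (y g) (tw g (x h)) - (l g + g • l h - l (g h))`, `l g = E (x g) (y g)`. Finally
`2 E (m+1) (y g) X = E m (2 y g)(2 X)` up to sign: `E (m+1) (y g) X = E m (y g) (2 X)` as
`2^m y g = 0` (`4 y g = 0`, `m ≥ 2`), times `2`: `E m (2 y g) (2 X) = E m (a g) (tw g (2 x h))`,
`a = 2 y ∈ V`, which is `if e (2^(m-1) tw g (2 x h)) (a g) = 0 then 0 else hf`; here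
`2^(m-1) (2 x h) ∈ V` is fixed by `tw g`. -/
def S_Qbi : Prop :=
  ∀ {G N P R : Type} [Group G] [TopologicalSpace G] [AddCommGroup N]
    [DistribMulAction G N] [AddCommGroup R] [DistribMulAction G R] (D : Dat G N P)
    (E : ℕ → N → N → R) (hf : R), Ax D → Ax3 D E hf → ∀ m, 2 ≤ m → ∀ (χ : G → ZMod 2)
    (Γ : Subgroup G) (x y : G → N), (∀ g ∈ Γ, 2 ^ (m + 1) • x g = 0) →
    (∀ g ∈ Γ, ∀ h ∈ Γ, x (g * h) = x g + tw χ g (x h)) → (∀ g ∈ Γ, 4 • y g = 0) →
    (∀ g ∈ Γ, ∀ h ∈ Γ, 2 • (y g + tw χ g (y h) - y (g * h)) = 0) →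
    ∃ l : G → R, ∀ g ∈ Γ, ∀ h ∈ Γ,
      qx E m χ (fun σ => x σ + y σ) g h = qx E m χ x g h + qx E m χ y g h +
        (if D.e (2 • y g) (2 ^ m • x h) = 0 then 0 else hf) - (l g + g • l h - l (g * h))

/-- Module `Qka` (`qx` vanishes for coboundaries of elements of `N` and for `V`-valued cocycles). (1)
`x g = tw g R - R`, `2^(m+2) R = 0`: PROOF: `R₂ = half R`, `l g = E (m+2) R (tw g R₂ - R₂)`;
`l g + g • l h - l (g h) = E (m+2) (tw g R - R) (tw g (tw h R₂ - R₂))` and this is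
`E (m+1) (x g) (tw g (x h)) = qx x (g, h)` by (b) (`2^(m+1) x g = 0`, `2^(m+2) (tw h R₂ - R₂) = 0` as
its double is `x h`). (2) `m ≥ 2`, `4 y = 0`, `a = 2 y`, `y g + tw g (y h) - y (g h) ∈ V`: PROOF:
`E (m+1) (y g) (tw g (y h)) = E m (a g) (tw g (y h))` `= if e (2^(m-1) tw g (y h)) (a g) = 0 ..`,
which is zero for `m ≥ 3` and `if e (a h) (a g) = 0 then 0 else hf` for `m = 2`; the second term of
`qx` is zero (`2^m y = 0`). -/
def S_Qka : Prop :=
  ∀ {G N P R : Type} [Group G] [TopologicalSpace G] [AddCommGroup N]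
    [DistribMulAction G N] [AddCommGroup R] [DistribMulAction G R] (D : Dat G N P)
    (E : ℕ → N → N → R) (hf : R), Ax D → Ax3 D E hf → ∀ m, 2 ≤ m → ∀ (χ : G → ZMod 2),
    (∀ σ τ, χ (σ * τ) = χ σ + χ τ) → ∀ (Γ : Subgroup G),
    (∀ Q : N, 2 ^ (m + 2) • Q = 0 → (∀ g ∈ Γ, 2 ^ (m + 1) • (tw χ g Q - Q) = 0) →
      ∃ l : G → R, ∀ g ∈ Γ, ∀ h ∈ Γ,
        qx E m χ (fun σ => tw χ σ Q - Q) g h = l g + g • l h - l (g * h)) ∧
    (∀ y : G → N, (∀ g ∈ Γ, 4 • y g = 0) →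
      (∀ g ∈ Γ, ∀ h ∈ Γ, 2 • (y g + tw χ g (y h) - y (g * h)) = 0) → ∀ g ∈ Γ, ∀ h ∈ Γ,
      qx E m χ y g h =
        if m = 2 then (if D.e (2 • y g) (2 • y h) = 0 then 0 else hf) else 0)

/-- Module `Qlo` (local computation). `η g = tw g Q - Q + a g`. PROOF. Let `Γ` be the subgroup
generated by `τ` and `φ`. `a` is a cocycle, `2 a = 0` on `Γ`, so `a` is a homomorphism there; also
`2^m (tw g Q - Q) = 2^m η g - 2^m a g = 0` on `Γ`. Let `x g = tw g R - R`, `R = half Q`, and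
`y = half ∘ a`. `x + y` is a half of `η` (`2 x g = tw g Q - Q`), as is `half ∘ η`, so
`iv (qx (half ∘ η)) = iv (qx (x + y))` by `Qch`, `IvR`. By `Qbi`, `Qka` (for `R`: `2^(m+2) R =
2^(m+1) Q = 0`), `IvR` this is `iv` of the sum of `if e (a g) (2^m x h) = 0 then 0 else hf` and of
the term of `Qka` (2). `2^m x h = 2^(m-1) (tw h Q - Q) = 2^(m-1) η h` on `Γ` (`m ≥ 2`), a
homomorphism to `V`. `Ivc` for `a`, `2^(m-1) η`, and for `a`, `a` (this one is zero, `e_sym`). -/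
def S_Qlo : Prop :=
  ∀ {G N P R : Type} [Group G] [TopologicalSpace G] [AddCommGroup N]
    [DistribMulAction G N] [AddCommGroup R] [DistribMulAction G R] (D : Dat G N P)
    (E : ℕ → N → N → R) (hf : R), Ax D → Ax3 D E hf → ∀ m, 2 ≤ m → ∀ (χ : G → ZMod 2),
    (∀ σ τ, χ (σ * τ) = χ σ + χ τ) → ∀ (v : P) (a η : G → N) (Q : N), IsCo χ η → IsCo χ a →
    2 • a (D.tau v) = 0 → 2 • a (D.phi v) = 0 → (∀ g, η g = tw χ g Q - Q + a g) →
    (∀ g, 2 ^ m • η g = 0) → 2 ^ (m + 1) • Q = 0 →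
    D.iv (qx E m χ fun g => half (η g)) v =
      if D.e (a (D.tau v)) (2 ^ (m - 1) • η (D.phi v)) +
        D.e (a (D.phi v)) (2 ^ (m - 1) • η (D.tau v)) = 0 then 0 else hf

/-- Module `AltP` (the pairing is alternating). PROOF. Let `m = k + 2`, `2^m η = 2^(k+1) coc x ξ = 0`
(`Uq`; `2 η = coc x ξ`). `z = qx E m (chi x) (half ∘ η)` is a `2`-cocycle (`Qc2`; `2^(m+1) half η =
0`, and twice the coboundary of `half ∘ η` is the coboundary of `η`, zero). At `v = pl x j` let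
`Q = quar (ξ j)`, `a = η - (tw Q - Q)`: by `ObR` (1) `a τ, a φ ∈ V`; `2^(m+1) Q = 2^(k+1) (4 Q)
= 0`; by `Qlo` `iv z v` is `if (j-th summand of ob x ξ η (2^k ξ)) = 0 then 0 else hf`, since
`coc x (2^k ξ) = 2^k (2 η) = 2^(m-1) η` (`Uq`). At the other `v`: `η (τ) = 0`, `chi x τ = 0`, `τ`
trivial on `N`; all terms of `iv z v` vanish (`half 0 = 0`; for `z (φ, τ)`: `x (φ τ) = x φ`, so both
terms are `E _ 0 = 0`; for `z (τ ^ q, φ)` the same). So `2 iv z v = 0` for all `v`, and `recR` says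
that the sum of the `iv z v`, which is `hf` times the number of nonzero summands of `ob`, vanishes;
`hf ≠ 0`, `2 hf = 0`, so this number is even. -/
def S_AltP : Prop :=
  ∀ {G N P ι R : Type} [Group G] [TopologicalSpace G] [IsTopologicalGroup G] [AddCommGroup N]
    [DistribMulAction G N] [Fintype ι] [DecidableEq ι] [AddCommGroup R] [DistribMulAction G R]
    (D : Dat G N P) (E : ℕ → N → N → R) (hf : R), Ax D → Ax3 D E hf → ∀ x : ι → P, D.Ok x →
    ∀ (k : ℕ) ξ (η : G → N), 2 ^ (k + 1) • ξ = 0 → D.IsH x ξ η →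
    D.ob x ξ η (2 ^ k • ξ) = 0

/-- Module `Hlf` (existence of halves; uses the Hasse principle). PROOF. `ψ = coc x ξ`,
`c (g, h) = half (ψ g) + tw g (half (ψ h)) - half (ψ (g h)) ∈ V`. For the basis `T₁, T₂` of `Bas`
let `z_i = e c T_i`, a `2`-cocycle (as in `Tre`). `iv z_i v = 0`: at `v = pl x j` by `Trl` with
`a = ψ - (tw Q - Q)`, `Q` a local datum of `ψ`, `a τ = a φ = 0`; at the other `v` all terms vanish
(as in `Tre`). By `has2` `z_i = l_i g + l_i h - l_i (g h)`; `l = [l₂ = 1] T₁ + [l₁ = 1] T₂` (values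
in `V`) satisfies `c (g, h) = l g + l h - l (g h)`. `η₀ = half ∘ ψ - l` is a locally constant
cocycle, `2 η₀ = ψ`, of bounded order. `{σ | η₀ σ = 0}` is an open subgroup, so by `fin`
`η₀ (τ_v) = 0` for almost all `v`; `η₀ (τ_v) ∈ V` for `v ∉ range (pl x)`. Subtract the homomorphism
`θ` of `Hom` (2) with the values `η₀ (τ_v)` at the finitely many `v ∉ range (pl x)` with
`η₀ (τ_v) ≠ 0` (`∞` is in the range). -/
def S_Hlf : Prop :=
  ∀ {G N P ι : Type} [Group G] [TopologicalSpace G] [IsTopologicalGroup G] [AddCommGroup N]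
    [DistribMulAction G N] [Fintype ι] [DecidableEq ι] (D : Dat G N P), Ax D → Ax2 D →
    ∀ x : ι → P, D.Ok x → ∀ ξ ∈ D.Z x, ∃ η : G → N, D.IsH x ξ η

/-- Module `AltE` (alternating forms have even rank). PROOF. `B` factors over `W / 2 W`; more
directly: induction on the order of `W`. If `B = 0` then `r = 0`. Otherwise choose `a, b` with
`B a b = 1`; `W' = {w | B a w = 0 ∧ B b w = 0}` has index four (`w ↦ (B a w, B b w)` is surjective:
`a ↦ (0, 1)`, `b ↦ (1, 0)`), `B` is alternating on `W'` and its radical on `W'` is the radical `R` of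
`B` on `W` (every `w` is `w' + i a + j b` with `w' ∈ W'`, and `R ⊆ W'`). -/
def S_AltE : Prop :=
  ∀ (W : Type) [AddCommGroup W] [Finite W] (B : W → W → ZMod 2),
    (∀ a b c, B (a + b) c = B a c + B b c) → (∀ a b c, B a (b + c) = B a b + B a c) →
    (∀ a, B a a = 0) → ∀ R : AddSubgroup W, (∀ a, a ∈ R ↔ ∀ b, B a b = 0) →
    ∃ r : ℕ, Nat.card W = 4 ^ r * Nat.card R

/-- Module `Rad` (the index of `Dk x (k+1)` in `Dk x k` is a power of four). PROOF. Let `k ≥ 1`,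
`Z_k = Z x ⊓ tor k` (finite). Every `ξ ∈ Z_k` has a half `η_ξ` (`Hlf`); let
`B (ξ, ξ') = ob x ξ η_ξ (2^(k-1) ξ')`, `2^(k-1) ξ' ∈ Dk x k ⊆ Dk x 1`. Biadditive by `ObA` (1), (2),
(5); alternating by `AltP` (with `k - 1`), so symmetric. The radical `Rk` is
`{ξ | 2^(k-1) ξ ∈ Dk x (k+1)}`: (⊇) if `2^(k-1) ξ = 2^k ζ` with `ζ ∈ Z_(k+1)`, then `ξ = 2 ζ + ξ₁`,
`2^(k-1) ξ₁ = 0` and `B (ξ, ξ') = B (2 ζ, ξ') + B (ξ', ξ₁) = 0 + 0` (`ObA` (3); `2^(k-1) ξ₁ = 0`).
(⊆) Let `A` be the group of the homomorphisms `Dk x 1 → ZMod 2` which vanish on `Dk x k`; it has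
`#(Dk x 1) / #(Dk x k)` elements. `ξ' ↦ ob x ξ' η_ξ'` is a homomorphism from `Z_(k-1)` to `A` (it
vanishes on `2^(k-1) ζ` for `ζ ∈ Z_k`: `B (ξ', ζ) = B (ζ, ξ') = ob (..) (2^(k-1) ξ') = 0`, where
`ξ' ∈ Z_(k-1) ⊆ Z_k`), with kernel `2 Z_k` (`ObA` (3), `Dua`), and `#Z_(k-1) / #(2 Z_k) =
#(Dk x 1) / #(Dk x k)` (see `Cou`), so it is onto `A`. If `ξ` is in the radical then its functional
is in `A`, so it is the functional of some `ξ' ∈ Z_(k-1)`, and by `Dua` `ξ - ξ' = 2 ζ`, `ζ ∈ Z x`,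
`2^(k+1) ζ = 0`, `2^(k-1) ξ = 2^k ζ ∈ Dk x (k+1)`. Finally `2^(k-1) • : Z_k → Dk x k` is onto and the
preimage of `Dk x (k+1)` is the radical, so `#(Dk x k) / #(Dk x (k+1)) = #Z_k / #Rk`, a power of
four by `AltE`. -/
def S_Rad : Prop :=
  ∀ {G N P ι R : Type} [Group G] [TopologicalSpace G] [IsTopologicalGroup G] [AddCommGroup N]
    [DistribMulAction G N] [Fintype ι] [DecidableEq ι] [AddCommGroup R] [DistribMulAction G R]
    (D : Dat G N P) (E : ℕ → N → N → R) (hf : R), Ax D → Ax2 D → Ax3 D E hf → ∀ x : ι → P,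
    D.Ok x → ∀ k, 1 ≤ k → ∃ r : ℕ, Nat.card (D.Dk x k) = 4 ^ r * Nat.card (D.Dk x (k + 1))

/-- Module `Evn`. PROOF. By `Rad` and induction `#(Dk x 1) = 4 ^ s * #(Dk x L)`, so `#(Dk x L)`
divides a power of four and is a power of two `2^e` with `e` even (`4^a = 4^s 2^e`); it is at least
`4` (`T ⊆ Dk x L`, `Dk1`), and less than `16`, so it is `4` and `Dk x L = T`. -/
def S_Evn : Prop :=
  ∀ {G N P ι R : Type} [Group G] [TopologicalSpace G] [IsTopologicalGroup G] [AddCommGroup N]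
    [DistribMulAction G N] [Fintype ι] [DecidableEq ι] [AddCommGroup R] [DistribMulAction G R]
    (D : Dat G N P) (E : ℕ → N → N → R) (hf : R), Ax D → Ax2 D → Ax3 D E hf → ∀ x : ι → P,
    D.Ok x → (∃ r : ℕ, Nat.card (D.Dk x 1) = 4 ^ r) → ∀ L, 1 ≤ L → Nat.card (D.Dk x L) < 16 →
    D.Dk x L = D.T ι

end Pool.Agent.MP72S
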